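import Pool.Agent.W142.TF.Stm
import Pool.Agent.W880.BQ.Ext

/-! TF-BAN: a set of upper Banach density at least `β` has measure at least `β` for an extreme
invariant mean (adapted from FN-MEAN, helper782). -/

set_option autoImplicit false

open MeasureTheory Filter Topology Finset
open scoped BoundedContinuousFunction

namespace Pool.Agent.W756.TF

open Pool.Agent.W634.BQ Pool.Agent.W505.BQ Pool.Agent.W27.FB Pool.Agent.W142.TF
open Pool.Agent.W880.BQ (KK KK_compact KK_closed ex_lim pos_bound)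

theorem sh_ap (k : ℤ) (f : ℤ →ᵇ ℝ) (n : ℤ) : sh k f n = f (n + k) := rfl

theorem ind_ap (A : Set ℤ) (n : ℤ) : ind A n = A.indicator (fun _ => (1 : ℝ)) n := rfl

/-- a functional of the compact convex set which charges `S` -/
theorem exists_charge {S : Set ℤ} {β : ℝ}
    (hS : ∀ L₀ : ℕ, ∃ L : ℕ, L₀ ≤ L ∧ ∃ u : ℤ,
      β * L ≤ ({n : ℕ | n < L ∧ u + (n : ℤ) ∈ S}.ncard : ℝ)) :
    ∃ φ ∈ KK Set.univ, β ≤ φ (ind S) := by
  have h0 : ∀ j : ℕ, ∃ (L : ℕ) (u : ℤ), j + 1 ≤ L ∧
      β * L ≤ ({n : ℕ | n < L ∧ u + (n : ℤ) ∈ S}.ncard : ℝ) := by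
    intro j
    obtain ⟨L, hL, u, hu⟩ := hS (j + 1)
    exact ⟨L, u, hL, hu⟩
  choose L u hL hu using h0
  have hLpos : ∀ j, (0 : ℝ) < L j := fun j => by
    have := hL j
    exact_mod_cast (show 0 < L j by omega)
  obtain ⟨ψ, hψ⟩ : ∃ ψ : ℕ → (ℤ →ᵇ ℝ) → ℝ, ∀ j f,
      ψ j f = (∑ n ∈ range (L j), f (u j + n)) / L j := ⟨_, fun _ _ => rfl⟩
  have hfb : ∀ (f : ℤ →ᵇ ℝ) n, |f n| ≤ ‖f‖ := fun f n => by
    have := f.norm_coe_le_norm n
    rwa [Real.norm_eq_abs] at this
  have hψb : ∀ f n, |ψ n f| ≤ ‖f‖ := by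
    intro f n
    rw [hψ, abs_div, abs_of_pos (hLpos n), div_le_iff₀ (hLpos n)]
    refine (abs_sum_le_sum_abs _ _).trans ?_
    calc ∑ k ∈ range (L n), |f (u n + k)| ≤ ∑ k ∈ range (L n), ‖f‖ :=
          sum_le_sum fun k _ => hfb _ _
      _ = ‖f‖ * (L n : ℝ) := by
          rw [sum_const, card_range, nsmul_eq_mul]
          ring
  have hlim : ∀ f : ℤ →ᵇ ℝ, ∃ y, |y| ≤ ‖f‖ ∧
      Tendsto (fun n => ψ n f) (hyperfilter ℕ : Ultrafilter ℕ) (𝓝 y) := fun f =>
    ex_lim (hyperfilter ℕ) (fun n => ψ n f) ‖f‖ (hψb f)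
  choose φ hφ1 hφ2 using hlim
  have hle : ((hyperfilter ℕ : Ultrafilter ℕ) : Filter ℕ) ≤ atTop := Nat.hyperfilter_le_atTop
  have hadd : ∀ f g, φ (f + g) = φ f + φ g := by
    intro f g
    refine tendsto_nhds_unique (hφ2 (f + g)) (((hφ2 f).add (hφ2 g)).congr fun n => ?_)
    simp only [hψ, BoundedContinuousFunction.coe_add, Pi.add_apply, sum_add_distrib, add_div]
  have hsm : ∀ (c : ℝ) f, φ (c • f) = c * φ f := by
    intro c f
    refine tendsto_nhds_unique (hφ2 (c • f)) (((hφ2 f).const_mul c).congr fun n => ?_)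
    simp only [hψ, BoundedContinuousFunction.coe_smul, smul_eq_mul, ← mul_sum, mul_div_assoc]
  refine ⟨φ, ⟨hadd, hsm, fun f hf => ?_, ?_, fun f => ?_, fun A hA => ?_⟩, ?_⟩
  · refine ge_of_tendsto' (hφ2 f) fun n => ?_
    rw [hψ]
    exact div_nonneg (sum_nonneg fun k _ => hf _) (hLpos n).le
  · refine tendsto_nhds_unique (hφ2 1) (tendsto_const_nhds.congr fun n => ?_)
    simp only [hψ, BoundedContinuousFunction.coe_one, Pi.one_apply, sum_const, card_range,
      nsmul_eq_mul, mul_one]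
    exact (div_self (hLpos n).ne').symm
  · have h1 : Tendsto (fun n => ψ n (sh 1 f) - ψ n f) (hyperfilter ℕ : Ultrafilter ℕ)
        (𝓝 (φ (sh 1 f) - φ f)) := (hφ2 _).sub (hφ2 _)
    have h2 : Tendsto (fun n => ψ n (sh 1 f) - ψ n f) atTop (𝓝 0) := by
      apply squeeze_zero_norm (a := fun n : ℕ => (2 * ‖f‖) * (1 / ((n : ℝ) + 1)))
      · intro n
        have h3 : ψ n (sh 1 f) - ψ n f = (f (u n + (L n : ℕ)) - f (u n + (0 : ℕ))) / L n := by
          have h4 : ∀ k : ℕ, sh 1 f (u n + k) = f (u n + ((k + 1 : ℕ) : ℤ)) := by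
            intro k
            rw [sh_ap]
            congr 1
            push_cast
            ring
          simp only [hψ, h4]
          rw [← sub_div, ← sum_sub_distrib, sum_range_sub (fun k : ℕ => f (u n + (k : ℤ)))]
        rw [h3, Real.norm_eq_abs, abs_div, abs_of_pos (hLpos n), div_le_iff₀ (hLpos n)]
        have h6 := hfb f (u n + (L n : ℕ))
        have h7 := hfb f (u n + (0 : ℕ))
        have h8 : |f (u n + (L n : ℕ)) - f (u n + (0 : ℕ))| ≤ 2 * ‖f‖ := by
          refine (abs_sub _ _).trans ?_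
          linarith
        have h9 : (1 : ℝ) ≤ 1 / ((n : ℝ) + 1) * L n := by
          have h10 : ((n : ℝ) + 1) ≤ L n := by exact_mod_cast hL n
          rw [one_div, inv_mul_eq_div, le_div_iff₀ (by positivity)]
          linarith
        calc |f (u n + (L n : ℕ)) - f (u n + (0 : ℕ))| ≤ 2 * ‖f‖ * 1 := by linarith
          _ ≤ 2 * ‖f‖ * (1 / ((n : ℝ) + 1) * L n) := by gcongr
          _ = _ := by ring
      · have h3 := (tendsto_one_div_add_atTop_nhds_zero_nat (𝕜 := ℝ)).const_mul (2 * ‖f‖)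
        rwa [mul_zero] at h3
    have h3 := tendsto_nhds_unique h1 (h2.mono_left hle)
    linarith
  · have hA0 : A = ∅ := by
      by_contra hne
      obtain ⟨a, ha⟩ := Set.nonempty_iff_ne_empty.2 hne
      exact hA (pure a) (Set.mem_univ _) (Ultrafilter.mem_pure.2 ha)
    have h1 : ind A = (0 : ℝ) • (1 : ℤ →ᵇ ℝ) := by
      ext n
      rw [ind_ap, hA0]
      simp
    rw [h1, hsm, zero_mul]
  · refine ge_of_tendsto' (hφ2 (ind S)) fun n => ?_
    rw [hψ, le_div_iff₀ (hLpos n)]
    refine (hu n).trans (le_of_eq ?_)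
    classical
    have h1 : ∀ k ∈ range (L n), ind S (u n + k) = if u n + (k : ℤ) ∈ S then (1 : ℝ) else 0 := by
      intro k _
      rw [ind_ap, Set.indicator_apply]
    rw [sum_congr rfl h1, ← sum_filter, sum_const, nsmul_eq_mul, mul_one]
    congr 1
    rw [← Set.ncard_coe_finset]
    congr 1
    ext k
    simp

theorem ban : S_ban := by
  intro S β hS
  obtain ⟨φ1, hφ1, hφ1S⟩ := exists_charge hS
  have hcS : Continuous fun φ : (ℤ →ᵇ ℝ) → ℝ => φ (ind S) := continuous_apply _
  obtain ⟨φ0, hφ0, hmax⟩ := (KK_compact Set.univ).exists_isMaxOn ⟨φ1, hφ1⟩ hcS.continuousOn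
  have hmax' : ∀ φ ∈ KK Set.univ, φ (ind S) ≤ φ0 (ind S) := fun φ hφ => hmax hφ
  set F : Set ((ℤ →ᵇ ℝ) → ℝ) := KK Set.univ ∩ {φ | φ (ind S) = φ0 (ind S)} with hF
  have hFc : IsCompact F := (KK_compact Set.univ).inter_right (isClosed_eq hcS continuous_const)
  obtain ⟨φ, hφ⟩ := hFc.extremePoints_nonempty ⟨φ0, hφ0, rfl⟩
  have hmemF : φ ∈ F := hφ.1
  have hmem : φ ∈ KK Set.univ := hmemF.1
  have hφS : φ (ind S) = φ0 (ind S) := hmemF.2
  obtain ⟨ha, hs, hp, h1, hi, hk⟩ := hmem
  let m : (ℤ →ᵇ ℝ) →ₗ[ℝ] ℝ :=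
    { toFun := φ
      map_add' := ha
      map_smul' := hs }
  have hm : ∀ f, m f = φ f := fun f => rfl
  refine ⟨m, ⟨hp, h1, hi⟩, ?_, ?_⟩
  swap
  · rw [hm, hφS]
    exact hφ1S.trans (hmax' φ1 hφ1)
  intro m' hm' hinv f
  obtain ⟨t, ht⟩ : ∃ t, t = m' 1 := ⟨_, rfl⟩
  have h10 : ∀ n : ℤ, (0 : ℝ) ≤ (1 : ℤ →ᵇ ℝ) n := fun n => by simp
  have ht0 : 0 ≤ t := by
    rw [ht]
    exact (hm' 1 h10).1
  have ht1 : t ≤ 1 := by
    rw [ht]
    have := (hm' 1 h10).2
    rwa [hm, h1] at this
  have hb1 : |m' f| ≤ ‖f‖ * m' 1 := pos_bound m' (map_add m') (fun c g => by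
    rw [map_smul, smul_eq_mul]) (fun g hg => (hm' g hg).1) f
  have hb2 : |m f - m' f| ≤ ‖f‖ * (m 1 - m' 1) :=
    pos_bound (fun g => m g - m' g) (fun g h => by
      rw [map_add, map_add]
      ring) (fun c g => by
      rw [map_smul, map_smul, smul_eq_mul, smul_eq_mul]
      ring) (fun g hg => sub_nonneg.2 (hm' g hg).2) f
  rw [← ht] at hb1 hb2 ⊢
  have hm1 : m 1 = 1 := h1
  rw [hm1] at hb2
  rcases ht0.eq_or_lt with h0 | h0
  · rw [← h0, mul_zero] at hb1
    rw [← h0, zero_mul]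
    exact abs_nonpos_iff.1 hb1
  · rcases ht1.eq_or_lt with h2 | h2
    · rw [h2, sub_self, mul_zero] at hb2
      have := abs_nonpos_iff.1 hb2
      rw [h2, one_mul]
      linarith
    · have hmem1 : (fun g => m' g / t) ∈ KK Set.univ := by
        refine ⟨fun g h => ?_, fun c g => ?_, fun g hg => ?_, ?_, fun g => ?_, fun A hA => ?_⟩
        · change m' (g + h) / t = m' g / t + m' h / t
          rw [map_add, add_div]
        · change m' (c • g) / t = c * (m' g / t)
          rw [map_smul, smul_eq_mul, mul_div_assoc]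
        · exact div_nonneg (hm' g hg).1 h0.le
        · change m' 1 / t = 1
          rw [← ht, div_self h0.ne']
        · change m' (sh 1 g) / t = m' g / t
          rw [hinv]
        · have h3 := hm' (ind A) fun n => by
            rw [ind_ap]
            exact Set.indicator_nonneg (fun _ _ => zero_le_one) _
          have h4 : m (ind A) = 0 := hk A hA
          rw [h4] at h3
          change m' (ind A) / t = 0
          rw [le_antisymm h3.2 h3.1, zero_div]
      have h1t : 0 < 1 - t := by linarith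
      have hmem2 : (fun g => (m g - m' g) / (1 - t)) ∈ KK Set.univ := by
        refine ⟨fun g h => ?_, fun c g => ?_, fun g hg => ?_, ?_, fun g => ?_, fun A hA => ?_⟩
        · change (m (g + h) - m' (g + h)) / (1 - t) =
            (m g - m' g) / (1 - t) + (m h - m' h) / (1 - t)
          rw [map_add, map_add]
          ring
        · change (m (c • g) - m' (c • g)) / (1 - t) = c * ((m g - m' g) / (1 - t))
          rw [map_smul, map_smul, smul_eq_mul, smul_eq_mul]
          ring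
        · exact div_nonneg (sub_nonneg.2 (hm' g hg).2) h1t.le
        · change (m 1 - m' 1) / (1 - t) = 1
          rw [← ht, hm1, div_self h1t.ne']
        · change (m (sh 1 g) - m' (sh 1 g)) / (1 - t) = (m g - m' g) / (1 - t)
          rw [hinv, hm, hm, hi]
        · have h3 := hm' (ind A) fun n => by
            rw [ind_ap]
            exact Set.indicator_nonneg (fun _ _ => zero_le_one) _
          have h4 : m (ind A) = 0 := hk A hA
          rw [h4] at h3
          change (m (ind A) - m' (ind A)) / (1 - t) = 0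
          rw [le_antisymm h3.2 h3.1, h4, sub_zero, zero_div]
      have hv1 : m' (ind S) / t ≤ φ0 (ind S) := hmax' _ hmem1
      have hv2 : (m (ind S) - m' (ind S)) / (1 - t) ≤ φ0 (ind S) := hmax' _ hmem2
      have hmS : m (ind S) = φ0 (ind S) := hφS
      have e1 : m' (ind S) ≤ φ0 (ind S) * t := (div_le_iff₀ h0).1 hv1
      have e2 : m (ind S) - m' (ind S) ≤ φ0 (ind S) * (1 - t) := (div_le_iff₀ h1t).1 hv2
      have e3 : m' (ind S) = φ0 (ind S) * t := by
        apply le_antisymm e1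
        rw [hmS] at e2
        linarith
      have hF1 : (fun g => m' g / t) ∈ F := by
        refine ⟨hmem1, ?_⟩
        show m' (ind S) / t = φ0 (ind S)
        rw [e3]
        field_simp
      have hF2 : (fun g => (m g - m' g) / (1 - t)) ∈ F := by
        refine ⟨hmem2, ?_⟩
        show (m (ind S) - m' (ind S)) / (1 - t) = φ0 (ind S)
        rw [e3, hmS]
        field_simp
      have hseg : φ ∈ openSegment ℝ (fun g => m' g / t) (fun g => (m g - m' g) / (1 - t)) := by
        refine ⟨t, 1 - t, h0, h1t, by ring, ?_⟩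
        funext g
        simp only [Pi.add_apply, Pi.smul_apply, smul_eq_mul]
        rw [hm g]
        field_simp
        ring
      have h3 := hφ.2 hF1 hF2 hseg
      have h4 : m' f / t = φ f := congrFun h3 f
      rw [hm f, ← h4]
      field_simp

end Pool.Agent.W756.TF
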